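import Mathlib
import Pool.Agent.H184R3.ES

/-!
# MP_75c0e8_co (Q2): functions determined by content and singletons are weakly reconstructible

For a finite set `A` with `k` elements and every arity at least `k ^ 2 + 3`, two functions
`A^n → B` that are determined by content and singletons and have equal decks are similar (in
fact equal up to reversing the order of the arguments). For infinite `A` (and `B` with at least
two elements) this fails in every arity `n ≥ 2`.
-/

namespace Pool.Agent.Results.MP_75c0e8_co.WeaklyReconstructible

open Finset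

variable {A B : Type*}

/-- `f ≃ g`: `f (a_1, ..., a_n) = g (a_{τ 1}, ..., a_{τ n})` for some permutation `τ`. -/
def Similar {n : ℕ} (f g : (Fin n → A) → B) : Prop :=
  ∃ τ : Equiv.Perm (Fin n), ∀ a : Fin n → A, f a = g (fun m => a (τ m))

theorem similar_refl {n : ℕ} (f : (Fin n → A) → B) : Similar f f := ⟨1, fun _ => rfl⟩

theorem similar_symm {n : ℕ} {f g : (Fin n → A) → B} (h : Similar f g) : Similar g f := by
  obtain ⟨τ, hτ⟩ := h
  refine ⟨τ.symm, fun a => ?_⟩
  rw [hτ]
  congr 1
  funext m
  simp

theorem similar_trans {n : ℕ} {f g h : (Fin n → A) → B} (h1 : Similar f g) (h2 : Similar g h) :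
    Similar f h := by
  obtain ⟨τ, hτ⟩ := h1
  obtain ⟨σ, hσ⟩ := h2
  refine ⟨σ.trans τ, fun a => ?_⟩
  rw [hτ, hσ]
  rfl

/-- Similarity as a setoid. -/
def simSetoid (A B : Type*) (n : ℕ) : Setoid ((Fin n → A) → B) where
  r := Similar
  iseqv := ⟨similar_refl, similar_symm, similar_trans⟩

/-- The identification minor `f_{ {i, j} }` of a function of arity `n + 1` for `i < j`: the
argument `a_i` is repeated at the position `j`. (Indices start with `0`; as `i < j ≤ n`, the
smaller index `i` is given as an element of `Fin n`.) -/
def minor {n : ℕ} (f : (Fin (n + 1) → A) → B) (i : Fin n) (j : Fin (n + 1)) :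
    (Fin n → A) → B :=
  fun a => f (j.insertNth (a i) a)

/-- The pairs `i < j` of argument positions. -/
def pairs (n : ℕ) : Finset (Fin n × Fin (n + 1)) := univ.filter (fun p => p.1.castSucc < p.2)

/-- The deck: the multiset of the similarity classes of all identification minors. -/
def deck {n : ℕ} (f : (Fin (n + 1) → A) → B) : Multiset (Quotient (simSetoid A B n)) :=
  (pairs n).val.map (fun p => Quotient.mk (simSetoid A B n) (minor f p.1 p.2))

/-- The content of a tuple: the multiset of its entries. -/
def content {n : ℕ} (a : Fin n → A) : Multiset A := univ.val.map a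

open scoped Classical in
/-- The singletons of a tuple (entries that occur exactly once) in their order of
occurrence. -/
noncomputable def sing {n : ℕ} (a : Fin n → A) : List A :=
  (List.ofFn a).filter (fun x => (content a).count x = 1)

/-- `f` is determined by content and singletons. -/
def DetCS {n : ℕ} (f : (Fin n → A) → B) : Prop :=
  ∀ a b : Fin n → A, content a = content b → sing a = sing b → f a = f b

/-- Weak reconstructibility of a set `C` of functions of arity `n + 1`. -/
def WeaklyRec {n : ℕ} (C : Set ((Fin (n + 1) → A) → B)) : Prop :=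
  ∀ f ∈ C, ∀ g ∈ C, deck f = deck g → Similar f g

section tools

theorem content_eq_ofFn {n : ℕ} (a : Fin n → A) : content a = (List.ofFn a : Multiset A) :=
  Fin.univ_val_map a

theorem card_content {n : ℕ} (a : Fin n → A) : (content a).card = n := by simp [content]

theorem content_perm {n : ℕ} (a : Fin n → A) (τ : Equiv.Perm (Fin n)) :
    content (fun m => a (τ m)) = content a := by
  rw [content_eq_ofFn, content_eq_ofFn]
  exact Multiset.coe_eq_coe.mpr (Equiv.Perm.ofFn_comp_perm τ a)

theorem content_insertNth {n : ℕ} (j : Fin (n + 1)) (y : A) (a : Fin n → A) :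
    content (j.insertNth y a : Fin (n + 1) → A) = y ::ₘ content a := by
  unfold content
  rw [Fin.univ_succAbove n j]
  simp only [cons_val, Multiset.map_cons, Fin.insertNth_apply_same, map_val, Multiset.map_map]
  congr 1
  apply Multiset.map_congr rfl
  intro i _
  simp

theorem sub_ofFn {r N : ℕ} (e : Fin r → Fin N) (he : StrictMono e) (c : Fin N → A) :
    (List.ofFn (fun i => c (e i))).Sublist (List.ofFn c) := by
  rw [List.sublist_iff_exists_fin_orderEmbedding_get_eq]
  refine ⟨OrderEmbedding.ofStrictMono
    (fun ix => Fin.cast (by simp) (e (Fin.cast (by simp) ix))) ?_, ?_⟩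
  · intro x y hxy
    have hxy' : Fin.cast (List.length_ofFn (f := fun i => c (e i))) x <
        Fin.cast (List.length_ofFn (f := fun i => c (e i))) y := hxy
    exact he hxy'
  · intro ix
    simp only [List.get_eq_getElem, List.getElem_ofFn, OrderEmbedding.coe_ofStrictMono,
      Fin.val_cast, Fin.eta]
    rfl

theorem sing_sublist {n : ℕ} (a : Fin n → A) : (sing a).Sublist (List.ofFn a) :=
  List.filter_sublist

open scoped Classical in
theorem count_of_mem_sing {n : ℕ} (a : Fin n → A) (x : A) (h : x ∈ sing a) :
    (content a).count x = 1 := by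
  simp only [sing, List.mem_filter, decide_eq_true_eq] at h
  exact h.2

theorem sing_nodup {n : ℕ} (a : Fin n → A) : (sing a).Nodup := by
  classical
  rw [List.nodup_iff_count_le_one]
  intro x
  by_cases h : x ∈ sing a
  · have h1 := count_of_mem_sing a x h
    rw [content_eq_ofFn, Multiset.coe_count] at h1
    rw [← h1]
    exact (sing_sublist a).count_le x
  · rw [List.count_eq_zero_of_not_mem h]
    omega

theorem sing_eq_of {n : ℕ} (c c' : Fin n → A) (h : content c' = content c)
    (hs : (sing c).Sublist (List.ofFn c')) : sing c' = sing c := by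
  classical
  have h1 : (sing c).Sublist (sing c') := by
    have h2 := hs.filter (fun x => decide ((content c).count x = 1))
    have h3 : (sing c).filter (fun x => decide ((content c).count x = 1)) = sing c := by
      rw [List.filter_eq_self]
      intro x hx
      simpa using count_of_mem_sing c x hx
    rw [h3] at h2
    unfold sing at *
    rw [h]
    exact h2
  symm
  apply h1.eq_of_length
  unfold sing
  rw [h]
  apply List.Perm.length_eq
  apply List.Perm.filter
  rw [← Multiset.coe_eq_coe, ← content_eq_ofFn, ← content_eq_ofFn, h]

theorem sing_rev {n : ℕ} (c : Fin n → A) : sing (fun m => c (Fin.rev m)) = (sing c).reverse := by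
  have h : content (fun m => c (Fin.rev m)) = content c := content_perm c Fin.revPerm
  have h2 : List.ofFn (fun m => c (Fin.rev m)) = (List.ofFn c).reverse := by
    apply List.ext_getElem
    · simp
    · intro i h1 h2
      simp only [List.getElem_ofFn, List.getElem_reverse, List.length_ofFn]
      congr 1
      ext
      simp [Fin.val_rev]
      omega
  unfold sing
  rw [h, h2, List.filter_reverse]

theorem fill [Nonempty A] {α : Type*} [DecidableEq α] (Q : Finset α) :
    ∀ (R : Multiset A), R.card = Q.card → ∃ w : α → A, Q.val.map w = R := by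
  induction Q using Finset.induction_on with
  | empty =>
    intro R hR
    refine ⟨fun _ => Classical.arbitrary A, ?_⟩
    rw [Finset.card_empty, Multiset.card_eq_zero] at hR
    simp [hR]
  | insert q Q hq ih =>
    intro R hR
    rw [Finset.card_insert_of_notMem hq] at hR
    obtain ⟨y, hy⟩ := Multiset.card_pos_iff_exists_mem.mp (by omega : 0 < R.card)
    obtain ⟨R', rfl⟩ := Multiset.exists_cons_of_mem hy
    obtain ⟨w, hw⟩ := ih R' (by simpa using hR)
    refine ⟨Function.update w q y, ?_⟩
    rw [Finset.insert_val_of_notMem hq, Multiset.map_cons, Function.update_self, ← hw]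
    congr 1
    apply Multiset.map_congr rfl
    intro i hi
    rw [Function.update_of_ne]
    rintro rfl
    exact hq hi

theorem exists_fill [Nonempty A] {n : ℕ} (P : Finset (Fin n)) (v : Fin n → A) (M : Multiset A)
    (hM : M.card = n) (hv : P.val.map v ≤ M) :
    ∃ a : Fin n → A, (∀ i ∈ P, a i = v i) ∧ content a = M := by
  classical
  obtain ⟨R, rfl⟩ := Multiset.le_iff_exists_add.mp hv
  have hR : R.card = (univ \ P).card := by
    rw [Finset.card_sdiff_of_subset (subset_univ P), Finset.card_univ, Fintype.card_fin]
    simp at hM
    omega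
  obtain ⟨w, hw⟩ := fill (univ \ P) R hR
  refine ⟨fun i => if i ∈ P then v i else w i, fun i hi => by simp [hi], ?_⟩
  unfold content
  have hsplit : (univ : Finset (Fin n)).val = P.val + (univ \ P).val := by
    rw [← Multiset.filter_add_not (fun i => i ∈ P) (univ : Finset (Fin n)).val]
    congr 1
    · have : (univ.filter (fun i => i ∈ P)) = P := by ext; simp
      rw [← Finset.filter_val, this]
    · have : (univ.filter (fun i => ¬ i ∈ P)) = univ \ P := by ext; simp
      rw [← Finset.filter_val, this]
  rw [hsplit, Multiset.map_add, ← hw]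
  congr 1
  · apply Multiset.map_congr rfl
    intro i hi
    have : i ∈ P := hi
    simp [this]
  · apply Multiset.map_congr rfl
    intro i hi
    have : i ∉ P := (Finset.mem_sdiff.mp hi).2
    simp [this]

open scoped Classical in
theorem exists_three [Fintype A] (M : Multiset A)
    (h : 2 * Fintype.card A < M.card) : ∃ x, 3 ≤ M.count x := by
  by_contra hcon
  push Not at hcon
  have h1 : ∑ x ∈ (univ : Finset A), M.count x = M.card :=
    Multiset.sum_count_eq_card (fun a _ => mem_univ a)
  have h2 : ∑ x ∈ (univ : Finset A), M.count x ≤ ∑ x ∈ (univ : Finset A), 2 :=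
    Finset.sum_le_sum (fun x _ => by have := hcon x; omega)
  simp at h2
  omega

/-- The key construction: a tuple with prescribed singles on prescribed positions. -/
theorem key [Fintype A] {n : ℕ} (c : Fin (n + 2) → A)
    (hn : 2 * Fintype.card A < n + 2) (p : Fin (n + 1))
    (m : Fin (Fintype.card A) → Fin (n + 1)) (hm : Function.Injective m)
    (h0 : ∀ r, m r ≠ 0) (hp : ∀ r, m r ≠ p) :
    ∃ (a : Fin (n + 1) → A) (hl : (sing c).length ≤ Fintype.card A), a 0 = a p ∧
      a 0 ::ₘ content a = content c ∧
      ∀ r : Fin (sing c).length, a (m (Fin.castLE hl r)) = (sing c).get r := by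
  classical
  obtain ⟨x, hx⟩ := exists_three (content c) (by rw [card_content]; exact hn)
  have hl : (sing c).length ≤ Fintype.card A := (sing_nodup c).length_le_card
  have : Nonempty A := ⟨x⟩
  set m' : Fin (sing c).length → Fin (n + 1) := fun r => m (Fin.castLE hl r) with hm'
  have hm'i : Function.Injective m' := by
    intro r s hrs
    have := hm hrs
    simpa [Fin.ext_iff] using this
  set v : Fin (n + 1) → A := Function.extend m' (sing c).get (fun _ => x) with hv
  have hvm : ∀ r, v (m' r) = (sing c).get r := fun r => hm'i.extend_apply _ _ r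
  have hv0 : v 0 = x := by
    rw [hv, Function.extend_apply']
    rintro ⟨r, hr⟩
    exact h0 _ hr
  have hvp : v p = x := by
    rw [hv, Function.extend_apply']
    rintro ⟨r, hr⟩
    exact hp _ hr
  set P1 : Finset (Fin (n + 1)) := {0, p} with hP1
  set P2 : Finset (Fin (n + 1)) := univ.map ⟨m', hm'i⟩ with hP2
  have hdisj : Disjoint P1 P2 := by
    rw [Finset.disjoint_left]
    intro q hq1 hq2
    simp only [hP1, mem_insert, mem_singleton] at hq1
    simp only [hP2, mem_map, mem_univ, true_and, Function.Embedding.coeFn_mk] at hq2
    obtain ⟨r, hr⟩ := hq2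
    rcases hq1 with h | h
    · exact h0 _ (hr.trans h)
    · exact hp _ (hr.trans h)
  have hP2map : P2.val.map v = (sing c : Multiset A) := by
    rw [hP2, Finset.map_val, Multiset.map_map]
    have : (v ∘ (⟨m', hm'i⟩ : Fin (sing c).length ↪ Fin (n + 1))) = (sing c).get := by
      funext r
      exact hvm r
    rw [this, Fin.univ_val_map, List.ofFn_get]
  have hP1map : P1.val.map v ≤ x ::ₘ x ::ₘ 0 := by
    by_cases h : (0 : Fin (n + 1)) = p
    · have : P1 = {0} := by rw [hP1, ← h]; simp
      rw [this]
      simp [hv0]
    · rw [hP1, Finset.insert_val_of_notMem (by simpa using h)]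
      simp [hv0, hvp]
  have hsum : (P1.disjUnion P2 hdisj).val.map v ≤ (content c).erase x := by
    rw [Finset.disjUnion_val, Multiset.map_add, hP2map]
    refine le_trans (add_le_add_left hP1map _) ?_
    have h3 : x ::ₘ ((x ::ₘ x ::ₘ 0) + (sing c : Multiset A)) ≤ content c := by
      rw [Multiset.le_iff_count]
      intro y
      by_cases hy : y = x
      · subst hy
        have : List.count y (sing c) = 0 := by
          apply List.count_eq_zero_of_not_mem
          intro hmem
          have := count_of_mem_sing c y hmem
          omega
        simp [this]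
        omega
      · have : List.count y (sing c) ≤ Multiset.count y (content c) := by
          rw [content_eq_ofFn, Multiset.coe_count]
          exact (sing_sublist c).count_le y
        rw [Multiset.count_cons_of_ne hy, Multiset.count_add, Multiset.count_cons_of_ne hy,
          Multiset.count_cons_of_ne hy, Multiset.count_zero, zero_add, Multiset.coe_count]
        exact this
    have h4 := Multiset.erase_le_erase x h3
    rwa [Multiset.erase_cons_head] at h4
  have hxmem : x ∈ content c := by
    rw [← Multiset.count_pos]
    omega
  obtain ⟨a, ha, hac⟩ := exists_fill (P1.disjUnion P2 hdisj) v ((content c).erase x)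
    (by rw [Multiset.card_erase_of_mem hxmem, card_content]; rfl) hsum
  have ha0 : a 0 = x := by
    rw [ha 0 (by simp [hP1]), hv0]
  have hap : a p = x := by
    rw [ha p (by simp [hP1]), hvp]
  refine ⟨a, hl, by rw [ha0, hap], ?_, ?_⟩
  · rw [hac, ha0]
    exact Multiset.cons_erase hxmem
  · intro r
    rw [← hvm r]
    apply ha
    rw [Finset.mem_disjUnion]
    right
    rw [hP2, Finset.mem_map]
    exact ⟨r, mem_univ _, rfl⟩

end tools

/-- The core: from one pair of similar minors. -/
theorem core [Fintype A] {n : ℕ} (hn : Fintype.card A ^ 2 + 3 ≤ n + 2)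
    (hA : 0 < Fintype.card A)
    (f g : (Fin (n + 2) → A) → B) (hf : DetCS f) (hg : DetCS g) (i : Fin (n + 1))
    (j : Fin (n + 2)) (h : Similar (minor f 0 1) (minor g i j)) : Similar f g := by
  classical
  obtain ⟨τ, hτ⟩ := h
  set k := Fintype.card A with hk
  have hn2 : 2 * k < n + 2 := by
    have h1 : 0 ≤ ((k : ℤ) - 1) ^ 2 := sq_nonneg _
    have h2 : 2 * (k : ℤ) < n + 2 := by
      have h3 : ((k ^ 2 + 3 : ℕ) : ℤ) ≤ ((n + 2 : ℕ) : ℤ) := by exact_mod_cast hn
      push_cast at h3
      nlinarith
    exact_mod_cast h2
  -- positions other than `0` and `τ i`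
  let α := {q : Fin (n + 1) // q ≠ 0 ∧ q ≠ τ i}
  have hcard : (k - 1) * (k - 1) < Fintype.card α := by
    have h1 : n - 1 ≤ Fintype.card α := by
      have h2 : Fintype.card α = (univ.filter (fun q : Fin (n + 1) => q ≠ 0 ∧ q ≠ τ i)).card :=
        Fintype.card_subtype _
      have h3 : (univ.filter (fun q : Fin (n + 1) => q ≠ 0 ∧ q ≠ τ i)) =
          univ \ {0, τ i} := by
        ext q
        simp
      rw [h2, h3, Finset.card_sdiff_of_subset (subset_univ _), Finset.card_univ,
        Fintype.card_fin]
      have : ({0, τ i} : Finset (Fin (n + 1))).card ≤ 2 := Finset.card_le_two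
      omega
    have h4 : (k - 1) * (k - 1) + 1 ≤ k ^ 2 := by
      obtain ⟨k', hk'⟩ : ∃ k', k = k' + 1 := ⟨k - 1, by omega⟩
      rw [hk']
      simp only [Nat.add_sub_cancel]
      nlinarith
    omega
  have hinj : Function.Injective (fun q : α => τ.symm q.1) := by
    intro q q' hqq
    exact Subtype.ext (τ.symm.injective hqq)
  -- common part of the two cases
  have hfc : ∀ (t : Finset α) (ht : k ≤ t.card) (c : Fin (n + 2) → A),
      ∃ (d : Fin (n + 2) → A), content d = content c ∧ f c = g d ∧
        ((StrictMonoOn (fun q : α => τ.symm q.1) t → sing d = sing c) ∧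
        (StrictAntiOn (fun q : α => τ.symm q.1) t → sing d = (sing c).reverse)) := by
    intro t ht c
    set e := t.orderEmbOfCardLe ht with he
    have het : ∀ r, e r ∈ t := fun r => Finset.orderEmbOfCardLe_mem t ht r
    set m : Fin k → Fin (n + 1) := fun r => (e r).1 with hm
    have hmono : StrictMono m := by
      intro r s hrs
      exact e.strictMono hrs
    obtain ⟨a, hl, ha0, hac, har⟩ := key c hn2 (τ i) m hmono.injective
      (fun r => (e r).2.1) (fun r => (e r).2.2)
    set b : Fin (n + 1) → A := fun q => a (τ q) with hb
    set d : Fin (n + 2) → A := j.insertNth (b i) b with hd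
    have hbi : b i = a 0 := by rw [ha0]
    have hdc : content d = content c := by
      rw [hd, content_insertNth, hbi, hb, content_perm, hac]
    refine ⟨d, hdc, ?_, ?_, ?_⟩
    · -- `f c = f c'`
      set c' : Fin (n + 2) → A := (1 : Fin (n + 2)).insertNth (a 0) a with hc'
      have hc'c : content c' = content c := by rw [hc', content_insertNth, hac]
      have hsub : (sing c).Sublist (List.ofFn c') := by
        have hmm : StrictMono (fun r : Fin (sing c).length =>
            (1 : Fin (n + 2)).succAbove (m (Fin.castLE hl r))) := by
          intro r s hrs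
          apply Fin.strictMono_succAbove
          exact hmono hrs
        have h1 := sub_ofFn _ hmm c'
        have h2 : (List.ofFn fun r : Fin (sing c).length =>
            c' ((1 : Fin (n + 2)).succAbove (m (Fin.castLE hl r)))) = sing c := by
          have : (fun r : Fin (sing c).length =>
            c' ((1 : Fin (n + 2)).succAbove (m (Fin.castLE hl r)))) = (sing c).get := by
            funext r
            rw [hc', Fin.insertNth_apply_succAbove, har]
          rw [this, List.ofFn_get]
        rwa [h2] at h1
      have hsing := sing_eq_of c c' hc'c hsub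
      rw [hf c c' hc'c.symm hsing.symm]
      exact hτ a
    · intro hsm
      apply sing_eq_of c d hdc
      have hmm : StrictMono (fun r : Fin (sing c).length =>
          j.succAbove (τ.symm (m (Fin.castLE hl r)))) := by
        intro r s hrs
        apply Fin.strictMono_succAbove
        have hrs' : Fin.castLE hl r < Fin.castLE hl s := hrs
        exact hsm (het _) (het _) (e.strictMono hrs')
      have h1 := sub_ofFn _ hmm d
      have h2 : (List.ofFn fun r : Fin (sing c).length =>
          d (j.succAbove (τ.symm (m (Fin.castLE hl r))))) = sing c := by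
        have : (fun r : Fin (sing c).length =>
          d (j.succAbove (τ.symm (m (Fin.castLE hl r))))) = (sing c).get := by
          funext r
          rw [hd, Fin.insertNth_apply_succAbove, hb]
          simp only [Equiv.apply_symm_apply]
          exact har r
        rw [this, List.ofFn_get]
      rwa [h2] at h1
    · intro hsa
      rw [← sing_rev c]
      have hcr : content (fun q => c (Fin.rev q)) = content c := content_perm c Fin.revPerm
      apply sing_eq_of _ d (by rw [hdc, hcr])
      rw [sing_rev c]
      have hmm : StrictMono (fun r : Fin (sing c).length =>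
          j.succAbove (τ.symm (m (Fin.castLE hl (Fin.rev r))))) := by
        intro r s hrs
        apply Fin.strictMono_succAbove
        apply hsa (het _) (het _)
        apply e.strictMono
        have : Fin.rev s < Fin.rev r := Fin.rev_lt_rev.mpr hrs
        exact this
      have h1 := sub_ofFn _ hmm d
      have h2 : (List.ofFn fun r : Fin (sing c).length =>
          d (j.succAbove (τ.symm (m (Fin.castLE hl (Fin.rev r)))))) = (sing c).reverse := by
        have : (fun r : Fin (sing c).length =>
          d (j.succAbove (τ.symm (m (Fin.castLE hl (Fin.rev r)))))) =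
            (fun r => (sing c).get (Fin.rev r)) := by
          funext r
          rw [hd, Fin.insertNth_apply_succAbove, hb]
          simp only [Equiv.apply_symm_apply]
          exact har (Fin.rev r)
        rw [this]
        apply List.ext_getElem
        · simp
        · intro q h1 h2
          simp only [List.getElem_ofFn, List.getElem_reverse, List.get_eq_getElem,
            Fin.val_rev]
          congr 1
          omega
      rwa [h2] at h1
  rcases Pool.Agent.H184R3.ES.erdos_szekeres hcard hinj with ⟨t, ht, hmon⟩ | ⟨t, ht, hanti⟩
  · refine ⟨1, fun c => ?_⟩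
    obtain ⟨d, hdc, hfg, h1, _⟩ := hfc t (by omega) c
    rw [hfg]
    exact hg d c hdc (h1 hmon)
  · refine ⟨Fin.revPerm, fun c => ?_⟩
    obtain ⟨d, hdc, hfg, _, h2⟩ := hfc t (by omega) c
    rw [hfg]
    apply hg
    · rw [hdc]
      exact (content_perm c Fin.revPerm).symm
    · rw [h2 hanti]
      exact (sing_rev c).symm

/-- Finite `A`: weak reconstructibility in all arities at least `|A|^2 + 3`. -/
theorem finite_case [Fintype A] [Nonempty A] {n : ℕ} (hn : Fintype.card A ^ 2 + 3 ≤ n + 1) :
    WeaklyRec {f : (Fin (n + 1) → A) → B | DetCS f} := by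
  obtain ⟨n', rfl⟩ : ∃ n', n = n' + 1 := ⟨n - 1, by omega⟩
  intro f hf g hg hdeck
  have h1 : Quotient.mk (simSetoid A B (n' + 1)) (minor f 0 1) ∈ deck g := by
    rw [← hdeck]
    unfold deck
    rw [Multiset.mem_map]
    refine ⟨(0, 1), ?_, rfl⟩
    show ((0 : Fin (n' + 1)), (1 : Fin (n' + 1 + 1))) ∈ pairs (n' + 1)
    simp [pairs]
  unfold deck at h1
  rw [Multiset.mem_map] at h1
  obtain ⟨p, _, hp⟩ := h1
  have h2 : Similar (minor g p.1 p.2) (minor f 0 1) := Quotient.exact hp
  exact core hn Fintype.card_pos f g hf hg p.1 p.2 (similar_symm h2)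

/-- Infinite `A`: no weak reconstructibility in any arity `n + 2 ≥ 2`. -/
theorem infinite_case [Infinite A] [Nontrivial B] (n : ℕ) :
    ¬ WeaklyRec {f : (Fin (n + 2) → A) → B | DetCS f} := by
  classical
  intro h
  obtain ⟨b0, b1, hb⟩ := exists_pair_ne B
  obtain ⟨e⟩ : Nonempty (ℕ ↪ A) := ⟨Infinite.natEmbedding A⟩
  set s : Fin (n + 2) → A := fun i => e i.val with hs
  have hsinj : Function.Injective s := by
    intro i j hij
    exact Fin.ext (e.injective hij)
  let f : (Fin (n + 2) → A) → B := fun _ => b0
  let g : (Fin (n + 2) → A) → B := fun a => if a = s then b1 else b0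
  have hf : DetCS f := fun _ _ _ _ => rfl
  have hsing : sing s = List.ofFn s := by
    unfold sing
    rw [List.filter_eq_self]
    intro x hx
    rw [content_eq_ofFn, Multiset.coe_count]
    have h1 := List.count_eq_one_of_mem ((List.nodup_ofFn).mpr hsinj) hx
    simpa using h1
  have hsing2 : ∀ a : Fin (n + 2) → A, sing a = sing s → a = s := by
    intro a ha
    have h1 : (sing a).length = n + 2 := by rw [ha, hsing]; simp
    have h2 : sing a = List.ofFn a := (sing_sublist a).eq_of_length (by simpa using h1)
    rw [h2, hsing] at ha
    exact List.ofFn_injective ha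
  have hg : DetCS g := by
    intro a b _ hab
    show (if a = s then b1 else b0) = (if b = s then b1 else b0)
    by_cases h1 : a = s
    · have h2 : b = s := hsing2 b (by rw [← hab, h1])
      simp [h1, h2]
    · have h2 : b ≠ s := fun h3 => h1 (hsing2 a (by rw [hab, h3]))
      simp [h1, h2]
  have hmin : ∀ p ∈ pairs (n + 1), minor f p.1 p.2 = minor g p.1 p.2 := by
    intro p hp
    simp only [pairs, mem_filter, mem_univ, true_and] at hp
    funext a
    show b0 = (if _ then b1 else b0)
    rw [if_neg]
    intro hcon
    have h1 : s p.2 = a p.1 := by rw [← hcon]; simp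
    have h2 : s p.1.castSucc = a p.1 := by
      have h3 : p.2.succAbove p.1 = p.1.castSucc := Fin.succAbove_of_castSucc_lt _ _ hp
      rw [← hcon, ← h3]
      simp
    have h4 := hsinj (h1.trans h2.symm)
    rw [h4] at hp
    exact lt_irrefl _ hp
  have hdeck : deck f = deck g := by
    unfold deck
    apply Multiset.map_congr rfl
    intro p hp
    rw [hmin p hp]
  obtain ⟨τ, hτ⟩ := h f hf g hg hdeck
  have h1 := hτ (fun m => s (τ.symm m))
  have h2 : g (fun m => (fun m => s (τ.symm m)) (τ m)) = b1 := by
    show (if _ then b1 else b0) = b1
    rw [if_pos]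
    funext m
    simp
  rw [h2] at h1
  exact hb h1

/-- **Result.** (1) If `A` is finite and nonempty, then in every arity `n + 1 ≥ |A|^2 + 3` the
functions `A^(n+1) → B` determined by content and singletons are weakly reconstructible: any two
of them with equal decks are similar. (2) For infinite `A` and `B` with at least two elements
this fails in every arity `n + 2 ≥ 2`. (3) Hence for `A` nonempty and `B` with two elements or
more, weak reconstructibility for all large arities holds exactly for finite `A`. -/
theorem result.{u, v} :
    (∀ (A : Type u) (B : Type v) [Fintype A] [Nonempty A] (n : ℕ), Fintype.card A ^ 2 + 3 ≤ n + 1 →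
      WeaklyRec {f : (Fin (n + 1) → A) → B | DetCS f}) ∧
    (∀ (A : Type u) (B : Type v) [Infinite A] [Nontrivial B] (n : ℕ),
      ¬ WeaklyRec {f : (Fin (n + 2) → A) → B | DetCS f}) ∧
    (∀ (A : Type u) (B : Type v) [Nonempty A] [Nontrivial B],
      (∃ N, ∀ n, N ≤ n + 1 → WeaklyRec {f : (Fin (n + 1) → A) → B | DetCS f}) ↔ Finite A) := by
  refine ⟨?_, ?_, ?_⟩
  · intro A B _ _ n hn
    exact finite_case hn
  · intro A B _ _ n
    exact infinite_case n
  · intro A B _ _
    constructor
    · rintro ⟨N, hN⟩
      by_contra hfin
      have : Infinite A := not_finite_iff_infinite.mp hfin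
      exact infinite_case (A := A) (B := B) N (hN (N + 1) (by omega))
    · intro hfin
      have := Fintype.ofFinite A
      exact ⟨Fintype.card A ^ 2 + 3, fun n hn => finite_case hn⟩

end Pool.Agent.Results.MP_75c0e8_co.WeaklyReconstructible
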